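import Pool.Agent.W529.ST.Wrap

/-! Means over the prime ideals of the extensions of a number field, and the numbers of extensions
of a homomorphism to a prime field. -/

set_option autoImplicit false

namespace Pool.Agent.R386.ST

open Filter Topology NumberField IsDedekindDomain Pool.Agent.H341R2 Pool.Agent.W353.TP
  Pool.Agent.W529.ST
open Pool.Agent.H921R2.TatePole (nm two_le_nm R hc R_eq_hc R_le kerPrime hom_finite C0 below)
open scoped TensorProduct

section
variable {K : Type} [Field K] [NumberField K]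

/-- natural mean over the homomorphisms to prime fields -/
noncomputable def AH (N : ℕ) (φ : HX K → ℝ) : ℝ :=
  Av N fun p => ∑ u : 𝓞 K →+* ZMod (p : ℕ), φ ⟨p, u⟩

theorem AH_add (N : ℕ) (φ ψ : HX K → ℝ) : AH N (fun x => φ x + ψ x) = AH N φ + AH N ψ := by
  unfold AH
  rw [← Av_add]
  congr 1
  funext p
  exact Finset.sum_add_distrib

theorem AH_sub (N : ℕ) (φ ψ : HX K → ℝ) : AH N (fun x => φ x - ψ x) = AH N φ - AH N ψ := by
  unfold AH
  rw [← Av_sub]
  congr 1
  funext p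
  exact Finset.sum_sub_distrib _ _

theorem AH_mul (N : ℕ) (c : ℝ) (φ : HX K → ℝ) : AH N (fun x => c * φ x) = c * AH N φ := by
  unfold AH
  rw [← Av_mul]
  congr 1
  funext p
  exact (Finset.mul_sum _ _ _).symm

theorem AH_sum {κ : Type*} (N : ℕ) (T : Finset κ) (φ : κ → HX K → ℝ) :
    AH N (fun x => ∑ k ∈ T, φ k x) = ∑ k ∈ T, AH N (φ k) := by
  unfold AH
  rw [← Av_sum]
  congr 1
  funext p
  exact Finset.sum_comm

theorem AH_mono {N : ℕ} {φ ψ : HX K → ℝ} (h : ∀ x, φ x ≤ ψ x) : AH N φ ≤ AH N ψ :=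
  Av_mono fun _ => Finset.sum_le_sum fun _ _ => h _

theorem AH_nonneg {N : ℕ} {φ : HX K → ℝ} (h : ∀ x, 0 ≤ φ x) : 0 ≤ AH N φ := by
  unfold AH Av
  exact div_nonneg (Finset.sum_nonneg fun p _ => Finset.sum_nonneg fun u _ => h _)
    (Nat.cast_nonneg _)

/-- Cauchy's inequality -/
theorem AH_cs (N : ℕ) (a b : HX K → ℝ) :
    AH N (fun x => a x * b x) ^ 2 ≤ AH N (fun x => a x ^ 2) * AH N (fun x => b x ^ 2) := by
  have h := cs_Av (K := K) (Finset.univ : Finset Unit) N (fun _ => a) (fun _ => b)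
  simpa [AH] using h

theorem AH_one : Tendsto (fun N => AH N fun _ : HX K => (1 : ℝ)) atTop (𝓝 1) := by
  have h := tendsto_Av (mean_hc K)
  refine h.congr fun N => ?_
  unfold AH
  congr 1
  funext p
  rw [Finset.sum_const, Finset.card_univ, card_hom_eq, R_eq_hc, nsmul_eq_mul, mul_one]

theorem tendsto_AH {φ : HX K → ℝ} {c : ℝ}
    (h : NN fun p => (∑ u : 𝓞 K →+* ZMod (p : ℕ), φ ⟨p, u⟩) - c) :
    Tendsto (fun N => AH N φ) atTop (𝓝 c) := tendsto_Av h

end

section
variable (K F : Type) [Field K] [NumberField K] [Field F] [NumberField F] [Algebra K F]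

/-- the number of extensions of a homomorphism to a prime field -/
noncomputable def PP (x : HX K) : ℝ := push K (fun _ : HX F => (1 : ℝ)) x

theorem PP_nonneg (x : HX K) : 0 ≤ PP K F x := by
  unfold PP push
  exact Finset.sum_nonneg fun _ _ => zero_le_one

theorem PP_le (x : HX K) : PP K F x ≤ Module.finrank ℚ F := by
  have h := push_abs_le (K := K) (h := fun _ : HX F => (1 : ℝ)) (B := 1) (fun _ => by simp) x
  rw [mul_one] at h
  exact (le_abs_self _).trans h

theorem qh_one (x : HX F) : qh (1 : 𝓞 F) x = 1 := by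
  rcases x with ⟨p, ψ⟩
  have : Fact (p : ℕ).Prime := ⟨p.2⟩
  rw [qh_eq, map_one, map_one]
  norm_num

theorem push_mul (h : HX K → ℝ) (p : Nat.Primes) :
    ∑ ψ : 𝓞 F →+* ZMod (p : ℕ), h ⟨p, res K ψ⟩ =
      ∑ u : 𝓞 K →+* ZMod (p : ℕ), h ⟨p, u⟩ * PP K F ⟨p, u⟩ := by
  classical
  rw [← sum_push (K := K) (fun x : HX F => h ⟨x.1, res K x.2⟩) p]
  refine Finset.sum_congr rfl fun u _ => ?_
  unfold PP push
  rw [Finset.mul_sum]
  refine Finset.sum_congr rfl fun ψ hψ => ?_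
  have h7 : res K ψ = u := (Finset.mem_filter.1 hψ).2
  have h9 : (⟨p, res K ψ⟩ : HX K) = ⟨p, u⟩ := by rw [← h7]
  rw [mul_one]
  exact congrArg h h9

theorem AH_PP : Tendsto (fun N => AH N (PP K F)) atTop (𝓝 1) := by
  have h := AH_one (K := F)
  refine h.congr fun N => ?_
  unfold AH
  congr 1
  funext p
  have h1 := push_mul K F (fun _ => (1 : ℝ)) p
  simp only [one_mul] at h1
  exact h1

end

section
variable (K F F' : Type) [Field K] [NumberField K] [Field F] [NumberField F] [Algebra K F]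
  [Field F'] [NumberField F'] [Algebra K F']

/-- the number of fields in `F ⊗ F'` -/
noncomputable def nf : ℕ := Nat.card (MaximalSpectrum (F ⊗[K] F'))

theorem inum_one : inum K F F' ((1 : 𝓞 F) : F) ((1 : 𝓞 F') : F') = nf K F F' := by
  unfold inum nf
  refine Nat.card_congr (Equiv.subtypeUnivEquiv fun m => ?_)
  refine ⟨1, ?_⟩
  have : (((1 : 𝓞 F) : F) ⊗ₜ[K] ((1 : 𝓞 F') : F') : F ⊗[K] F') = 1 := rfl
  rw [this, map_one, one_mul]

theorem AH_PP_PP : Tendsto (fun N => AH N fun x => PP K F x * PP K F' x) atTop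
    (𝓝 (nf K F F' : ℝ)) := by
  have h := gramN (K := K) (one_ne_zero (α := 𝓞 F)) (one_ne_zero (α := 𝓞 F'))
  rw [inum_one] at h
  have e1 : (qh (1 : 𝓞 F)) = fun _ => (1 : ℝ) := funext (qh_one F)
  have e2 : (qh (1 : 𝓞 F')) = fun _ => (1 : ℝ) := funext (qh_one F')
  rw [e1, e2] at h
  exact tendsto_AH h

end

section
variable {K F : Type} [Field K] [NumberField K] [Field F] [NumberField F] [Algebra K F]

/-- the value at the kernel -/
noncomputable def ke {X : Type} (h : HeightOneSpectrum (𝓞 K) → X) (x : HX K) : X :=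
  h (kerPrime x.1 x.2).1.1

theorem mean_ke (h : HeightOneSpectrum (𝓞 K) → ℝ) {B : ℝ} (hB : ∀ v, |h v| ≤ B) :
    Tendsto (fun N => mean K h N - AH N (ke h)) atTop (𝓝 0) := mean_sub h hB

/-- base change of a function on the primes, off the finite set `S` -/
def BC (h : HeightOneSpectrum (𝓞 K) → ℝ) (g : HeightOneSpectrum (𝓞 F) → ℝ) : Prop :=
  ∃ S : Finset (HeightOneSpectrum (𝓞 F)), ∀ w, w ∉ S → ∀ v : HeightOneSpectrum (𝓞 K),
    w.asIdeal.comap (algebraMap (𝓞 K) (𝓞 F)) = v.asIdeal →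
    Ideal.absNorm w.asIdeal = Ideal.absNorm v.asIdeal → g w = h v

/-- the mean over the primes of the extension -/
theorem mean_bc {h : HeightOneSpectrum (𝓞 K) → ℝ} {g : HeightOneSpectrum (𝓞 F) → ℝ} {B : ℝ}
    (hg : ∀ w, |g w| ≤ B) (hbc : BC h g) :
    Tendsto (fun N => mean F g N - AH N (fun x => ke h x * PP K F x)) atTop (𝓝 0) := by
  classical
  obtain ⟨S, hS⟩ := hbc
  have h1 := mean_sub g hg
  have h2 : NN fun p => (∑ ψ : 𝓞 F →+* ZMod (p : ℕ), g (kerPrime p ψ).1.1) -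
      ∑ u : 𝓞 K →+* ZMod (p : ℕ), ke h ⟨p, u⟩ * PP K F ⟨p, u⟩ := by
    have hM : (∏ w ∈ S, ((below w : ℕ) : ℤ)) ≠ 0 :=
      Finset.prod_ne_zero_iff.2 fun w _ => by exact_mod_cast (below w).2.ne_zero
    refine NN.of_dvd hM fun p hp => ?_
    have : Fact (p : ℕ).Prime := ⟨p.2⟩
    rw [← push_mul K F (ke h) p, sub_eq_zero]
    refine Finset.sum_congr rfl fun ψ _ => ?_
    have hw : (kerPrime p ψ).1.1 ∉ S := by
      intro hmem
      apply hp
      have h3 : below (kerPrime p ψ).1.1 = p := (kerPrime p ψ).1.2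
      have h4 := Finset.dvd_prod_of_mem (fun w => ((below w : ℕ) : ℤ)) hmem
      simp only [h3] at h4
      exact h4
    refine hS _ hw (kerPrime p (res K ψ)).1.1 ?_ ?_
    · change (RingHom.ker ψ).comap (algebraMap (𝓞 K) (𝓞 F)) = RingHom.ker (res K ψ)
      ext z
      rw [Ideal.mem_comap, RingHom.mem_ker, RingHom.mem_ker]
      rfl
    · have h1 : Ideal.absNorm (kerPrime p ψ).1.1.asIdeal = (p : ℕ) := nm_kerPrime p ψ
      have h2 : Ideal.absNorm (kerPrime p (res K ψ)).1.1.asIdeal = (p : ℕ) :=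
        nm_kerPrime p (res K ψ)
      rw [h1, h2]
  have h3 : Tendsto (fun N => Av N (fun p => (∑ ψ : 𝓞 F →+* ZMod (p : ℕ), g (kerPrime p ψ).1.1) -
      ∑ u : 𝓞 K →+* ZMod (p : ℕ), ke h ⟨p, u⟩ * PP K F ⟨p, u⟩)) atTop (𝓝 0) := h2
  have h4 := h1.add h3
  rw [add_zero] at h4
  refine h4.congr fun N => ?_
  rw [Av_sub]
  unfold AH
  ring

end

end Pool.Agent.R386.ST
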